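import Pool.Agent.Helper93.PL.St2

set_option autoImplicit false

namespace Pool.Agent.Helper6.PL

open Finset Filter Topology
open Pool.Agent.Helper93.PL

private theorem pois_sum (J : ℕ) (y : ℝ) :
    ∑ j ∈ range J, pois j y = Real.exp (-y) * ∑ j ∈ range J, y ^ j / (j.factorial : ℝ) := by
  rw [Finset.mul_sum]
  exact Finset.sum_congr rfl fun j _ => by rw [pois, mul_div_assoc]

private theorem pois_le (J : ℕ) {y : ℝ} (hy : 0 ≤ y) : ∑ j ∈ range J, pois j y ≤ 1 := by
  rw [pois_sum]
  calc Real.exp (-y) * ∑ j ∈ range J, y ^ j / (j.factorial : ℝ)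
      ≤ Real.exp (-y) * Real.exp y :=
        mul_le_mul_of_nonneg_left (Real.sum_le_exp_of_nonneg hy J) (Real.exp_pos _).le
    _ = 1 := by rw [← Real.exp_add]; simp

private theorem tail (J : ℕ) {y : ℝ} (hy : 0 ≤ y) (hJ : 1 ≤ J) (N : ℕ) :
    (J : ℝ) * ∑ j ∈ Ico J (J + N), y ^ j / (j.factorial : ℝ) ≤ y * Real.exp y := by
  rw [Finset.mul_sum]
  calc ∑ j ∈ Ico J (J + N), (J : ℝ) * (y ^ j / (j.factorial : ℝ))
      ≤ ∑ j ∈ Ico J (J + N), y * (y ^ (j - 1) / ((j - 1).factorial : ℝ)) := by
        refine Finset.sum_le_sum fun j hj => ?_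
        rw [Finset.mem_Ico] at hj
        obtain ⟨i, rfl⟩ : ∃ i, j = i + 1 := ⟨j - 1, by omega⟩
        rw [Nat.add_sub_cancel, Nat.factorial_succ, pow_succ]
        have h1 : (J : ℝ) ≤ ((i + 1 : ℕ) : ℝ) := by exact_mod_cast hj.1
        have h2 : (0 : ℝ) < i.factorial := by exact_mod_cast Nat.factorial_pos i
        have h3 : (0 : ℝ) < ((i + 1 : ℕ) : ℝ) := by positivity
        have h4 : (J : ℝ) * (y ^ i * y / (((i + 1) * i.factorial : ℕ) : ℝ)) =
            (J : ℝ) / ((i + 1 : ℕ) : ℝ) * (y * (y ^ i / (i.factorial : ℝ))) := by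
          push_cast
          field_simp
        rw [h4]
        have h5 : (J : ℝ) / ((i + 1 : ℕ) : ℝ) ≤ 1 := (div_le_one h3).2 h1
        have h6 : 0 ≤ y * (y ^ i / (i.factorial : ℝ)) := by positivity
        nlinarith
    _ = y * ∑ j ∈ Ico J (J + N), y ^ (j - 1) / ((j - 1).factorial : ℝ) := by
        rw [Finset.mul_sum]
    _ ≤ y * Real.exp y := by
        refine mul_le_mul_of_nonneg_left ?_ hy
        calc ∑ j ∈ Ico J (J + N), y ^ (j - 1) / ((j - 1).factorial : ℝ)
            = ∑ i ∈ Ico (J - 1) (J - 1 + N), y ^ i / (i.factorial : ℝ) := by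
              have h7 : Ico J (J + N) = (Ico (J - 1) (J - 1 + N)).image (fun i => i + 1) := by
                ext j
                simp only [Finset.mem_image, Finset.mem_Ico]
                constructor
                · intro h
                  exact ⟨j - 1, by omega, by omega⟩
                · rintro ⟨i, hi, rfl⟩
                  omega
              rw [h7, Finset.sum_image (fun a _ b _ h => by simpa using h)]
              simp
          _ ≤ ∑ i ∈ range (J - 1 + N), y ^ i / (i.factorial : ℝ) := by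
              refine Finset.sum_le_sum_of_subset_of_nonneg ?_ fun i _ _ => by positivity
              intro i hi
              rw [Finset.mem_Ico] at hi
              exact Finset.mem_range.2 hi.2
          _ ≤ Real.exp y := Real.sum_le_exp_of_nonneg hy _

private theorem exp_lim (y : ℝ) :
    Tendsto (fun N => ∑ j ∈ range N, y ^ j / (j.factorial : ℝ)) atTop (𝓝 (Real.exp y)) := by
  have h := NormedSpace.expSeries_div_hasSum_exp (𝔸 := ℝ) y
  rw [← Real.exp_eq_exp_ℝ] at h
  exact h.tendsto_sum_nat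

private theorem pois_ge (J : ℕ) (hJ : 1 ≤ J) {y : ℝ} (hy : 0 ≤ y) :
    1 - y / J ≤ ∑ j ∈ range J, pois j y := by
  have hJ0 : (0 : ℝ) < J := by exact_mod_cast hJ
  set S : ℝ := ∑ j ∈ range J, y ^ j / (j.factorial : ℝ) with hS
  have h1 : (J : ℝ) * (Real.exp y - S) ≤ y * Real.exp y := by
    have h2 : Tendsto (fun N => (J : ℝ) * (∑ j ∈ range (N + J), y ^ j / (j.factorial : ℝ) - S)) atTop
        (𝓝 ((J : ℝ) * (Real.exp y - S))) :=
      ((((tendsto_add_atTop_iff_nat J).2 (exp_lim y)).sub_const S).const_mul (J : ℝ))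
    refine le_of_tendsto' h2 fun N => ?_
    have h3 : ∑ j ∈ range (N + J), y ^ j / (j.factorial : ℝ) - S =
        ∑ j ∈ Ico J (J + N), y ^ j / (j.factorial : ℝ) := by
      rw [hS, add_comm N J, Finset.sum_Ico_eq_sub _ (by omega)]
    rw [h3]
    exact tail J hy hJ N
  rw [pois_sum, ← hS]
  have h4 : Real.exp y - S ≤ y / J * Real.exp y := by
    rw [div_mul_eq_mul_div, le_div_iff₀ hJ0]
    linarith
  have h5 : 0 < Real.exp (-y) := Real.exp_pos _
  have h6 : Real.exp (-y) * Real.exp y = 1 := by rw [← Real.exp_add]; simp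
  have h7 := mul_le_mul_of_nonneg_left h4 h5.le
  have h8 : Real.exp (-y) * (y / J * Real.exp y) = y / J := by
    calc Real.exp (-y) * (y / J * Real.exp y) = y / J * (Real.exp (-y) * Real.exp y) := by ring
      _ = y / J := by rw [h6, mul_one]
  rw [mul_sub, h6, h8] at h7
  linarith

theorem hPc (hPa : StPa) (hPb : StPb) : Pool.Agent.Helper93.PL.StPc := by
  intro w J x hx hJ
  obtain ⟨-, hE1, -, hmono, heu⟩ := hPa
  have hE2 := hPb.1 w
  have hJ0 : (0 : ℝ) < J := by exact_mod_cast hJ
  have hsum : ∑ j ∈ range J, LawW w j x =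
      Ec w (fun n => ∑ j ∈ range J, pois j (x * eu n)) := by
    unfold LawW Ec
    rw [Finset.sum_comm]
    refine Finset.sum_congr rfl fun n _ => ?_
    rw [Finset.mul_sum]
  rw [hsum]
  constructor
  · have h1 : Ec w (fun n => 1 - x * eu n / J) = Ec w (fun _ => 1) - x / J * Ec w (fun n => eu n) := by
      unfold Ec
      rw [Finset.mul_sum, ← Finset.sum_sub_distrib]
      refine Finset.sum_congr rfl fun n _ => ?_
      ring
    have h2 : Ec w (fun n => 1 - x * eu n / J) ≤
        Ec w (fun n => ∑ j ∈ range J, pois j (x * eu n)) :=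
      hmono w _ _ fun n hn => pois_ge J hJ (mul_nonneg hx (heu w n hn).le)
    have h3 : x / J * Ec w (fun n => eu n) ≤ x / J * 2 :=
      mul_le_mul_of_nonneg_left hE2 (by positivity)
    have h4 : 2 * x / J = x / J * 2 := by ring
    rw [h4]
    have h5 := hE1 w
    linarith
  · have h1 : Ec w (fun n => ∑ j ∈ range J, pois j (x * eu n)) ≤ Ec w (fun _ => 1) :=
      hmono w _ _ fun n hn => pois_le J (mul_nonneg hx (heu w n hn).le)
    exact h1.trans (hE1 w).le

end Pool.Agent.Helper6.PL
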